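import Pool.Agent.K1H99.HM.Higgs

/-!
# The energy density along the flow of Higgs bundles: rank two

For every `SL(2, ℂ)`-Higgs bundle `(E, φ)` on a closed Riemann surface the energy density of the
harmonic map of `(E, t φ)` is, at every point, a nondecreasing function of `|t|`.
-/

set_option autoImplicit false

namespace Pool.Agent.Results.MP_8bb00a_gt.RankTwo

open Pool.Agent.K1H99.HM

/-- **Question Q1 in rank two.** `X` is a closed Riemann surface `Γ \ D`, `E` a rank two Higgs bundle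
with trivial determinant on it, `H₁`, `H₂` are harmonic metrics of `t₁ · E`, `t₂ · E`, and
`harmonicMap H₁ Ψ₁`, `harmonicMap H₂ Ψ₂` the corresponding harmonic maps. -/
theorem result {D : Set ℂ} {Γ : Type} [Group Γ] {X : Surface D Γ} (E : Higgs X)
    (lam : ℂ → ℝ) (hlam : ∀ z ∈ D, 0 < lam z) {t₁ t₂ : ℂ} (h1 : t₁ ≠ 0) (h12 : ‖t₁‖ ≤ ‖t₂‖)
    {H₁ H₂ Ψ₁ Ψ₂ : ℂ → M2}
    (hH₁ : IsHarmonic (E.flow t₁) H₁) (hH₂ : IsHarmonic (E.flow t₂) H₂)
    (hΨ₁ : IsParallel (E.flow t₁) H₁ Ψ₁) (hΨ₂ : IsParallel (E.flow t₂) H₂ Ψ₂)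
    {z : ℂ} (hz : z ∈ D) :
    energy lam (harmonicMap H₁ Ψ₁) z ≤ energy lam (harmonicMap H₂ Ψ₂) z :=
  main E lam hlam h1 h12 hH₁ hH₂ hΨ₁ hΨ₂ hz

end Pool.Agent.Results.MP_8bb00a_gt.RankTwo
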